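import Mathlib
import Pool.Agent.H56.Dens123

namespace Pool.Agent.Results.MP_37c1b2_nt.Exact

open Filter Topology

theorem result :
    IsGreatest {d : ℝ | ∃ A : Set ℕ, (∀ a ∈ A, 0 < a) ∧
      (∀ n : ℕ, 0 < n → ¬ (n ∈ A ∧ 2 * n ∈ A ∧ 3 * n ∈ A)) ∧
      Tendsto (fun x : ℕ => ((A ∩ Set.Icc 1 x).ncard : ℝ) / (x : ℝ)) atTop (𝓝 d)} (3 / 4) := by
  constructor
  · refine ⟨Pool.Agent.H56.Dens123.E, fun a ha => ha.1, ?_, ?_⟩
    · rintro n hn ⟨h1, -, h3⟩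
      exact (Pool.Agent.H56.Dens123.mem_E_three n hn).mp h3 h1
    · simp only [Pool.Agent.H56.Dens123.ncard_eq]
      exact Pool.Agent.H56.Dens123.tendsto_E
  · rintro d ⟨A, -, hA, hd⟩
    simp only [Pool.Agent.H56.Dens123.ncard_eq] at hd
    exact Pool.Agent.H56.Dens123.upper A hA d hd

end Pool.Agent.Results.MP_37c1b2_nt.Exact
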